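import Mathlib
import Pool.Agent.K4H77.DA

/-!
# Displaced primes: the bounded difference inequality
-/

set_option autoImplicit false

open MeasureTheory ProbabilityTheory Filter Finset
open scoped Topology

namespace Pool.Agent.K4H61.DP

open Pool.Agent.K4H77.Displ

variable {Ω : Type*} [MeasurableSpace Ω] {w : ℕ → ℕ}

/-- `f` depends only on the coordinates in `G` -/
def Dep (G : Finset ℕ) (f : (ℕ → ℕ) → ℝ) : Prop := ∀ u v : ℕ → ℕ, (∀ i ∈ G, u i = v i) → f u = f v

/-- the mean over the coordinate `p` -/
noncomputable def av (w : ℕ → ℕ) (p : ℕ) (f : (ℕ → ℕ) → ℝ) (v : ℕ → ℕ) : ℝ :=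
  (∑ t ∈ Icc (p - w p) (p + w p), f (Function.update v p t)) / (2 * w p + 1)

theorem dep_av {G : Finset ℕ} {f : (ℕ → ℕ) → ℝ} (hf : Dep G f) (p : ℕ) :
    Dep (G.erase p) (av w p f) := by
  intro u v h
  unfold av
  congr 1
  refine Finset.sum_congr rfl fun t _ => hf _ _ fun i hi => ?_
  by_cases hip : i = p
  · subst hip; simp
  · rw [Function.update_of_ne hip, Function.update_of_ne hip]
    exact h i (Finset.mem_erase.2 ⟨hip, hi⟩)

theorem dep_upd {G : Finset ℕ} {f : (ℕ → ℕ) → ℝ} (hf : Dep G f) (p t : ℕ) :
    Dep (G.erase p) (fun v => f (Function.update v p t)) := by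
  intro u v h
  refine hf _ _ fun i hi => ?_
  by_cases hip : i = p
  · subst hip; simp
  · rw [Function.update_of_ne hip, Function.update_of_ne hip]
    exact h i (Finset.mem_erase.2 ⟨hip, hi⟩)

/-- a function of finitely many coordinates factors through the restriction -/
noncomputable def fac (G : Finset ℕ) (f : (ℕ → ℕ) → ℝ) (v : G → ℕ) : ℝ :=
  f (fun i => if h : i ∈ G then v ⟨i, h⟩ else 0)

theorem fac_eq {G : Finset ℕ} {f : (ℕ → ℕ) → ℝ} (hf : Dep G f) (v : ℕ → ℕ) :
    fac G f (fun i => v i) = f v := by
  refine hf _ _ fun i hi => ?_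
  simp [hi]

variable {P : Measure Ω} [IsProbabilityMeasure P] {X : ℕ → Ω → ℕ}

theorem meas_dep (hX : Displaced w P X) {G : Finset ℕ} {f : (ℕ → ℕ) → ℝ} (hf : Dep G f) :
    Measurable fun ω => f (fun i => X i ω) := by
  have h1 : Measurable fun ω => (fun i : G => X i ω) := measurable_pi_lambda _ fun i => hX.meas i
  have h2 : Measurable (fac G f) := Measurable.of_discrete
  have e : (fun ω => f (fun i => X i ω)) = (fac G f) ∘ (fun ω => (fun i : G => X i ω)) := by
    funext ω
    exact (fac_eq hf _).symm
  rw [e]
  exact h2.comp h1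

theorem int_dep (hX : Displaced w P X) {G : Finset ℕ} {f : (ℕ → ℕ) → ℝ} (hf : Dep G f) {B : ℝ}
    (hB : ∀ v, |f v| ≤ B) : Integrable (fun ω => f (fun i => X i ω)) P :=
  Integrable.of_bound (meas_dep hX hf).aestronglyMeasurable B
    (Filter.Eventually.of_forall fun _ => by rw [Real.norm_eq_abs]; exact hB _)

theorem av_bdd (hw : ∀ n, 4 * w n ≤ n) {f : (ℕ → ℕ) → ℝ} {B : ℝ} (hB : ∀ v, |f v| ≤ B) (p : ℕ)
    (v : ℕ → ℕ) : |av w p f v| ≤ B := by
  unfold av
  have h0 : (0 : ℝ) < 2 * w p + 1 := by positivity
  rw [abs_div, abs_of_pos h0, div_le_iff₀ h0]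
  refine (Finset.abs_sum_le_sum_abs _ _).trans ?_
  refine (Finset.sum_le_card_nsmul _ _ B fun t _ => hB _).trans ?_
  rw [card_rg hw, nsmul_eq_mul]
  push_cast
  linarith

/-- averaging over one coordinate does not change the expectation -/
theorem step (hw : ∀ n, 4 * w n ≤ n) (hX : Displaced w P X) {G : Finset ℕ} {f : (ℕ → ℕ) → ℝ}
    (hf : Dep G f) {B : ℝ} (hB : ∀ v, |f v| ≤ B) (p : ℕ) :
    ∫ ω, f (fun i => X i ω) ∂P = ∫ ω, av w p f (fun i => X i ω) ∂P := by
  have hsplit : ∀ ω, f (fun i => X i ω) = ∑ t ∈ Icc (p - w p) (p + w p),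
      (if X p ω = t then (1 : ℝ) else 0) * f (Function.update (fun i => X i ω) p t) := by
    intro ω
    rw [Finset.sum_eq_single (X p ω)]
    · rw [if_pos rfl, one_mul]
      congr 1
      exact (Function.update_eq_self p (fun i => X i ω)).symm
    · intro t _ ht
      rw [if_neg (Ne.symm ht), zero_mul]
    · intro h
      exact absurd (hX.mem p ω) h
  have hind : ∀ t, ∫ ω, (if X p ω = t then (1 : ℝ) else 0)
      * f (Function.update (fun i => X i ω) p t) ∂P
      = (∫ ω, (if X p ω = t then (1 : ℝ) else 0) ∂P)
        * ∫ ω, f (Function.update (fun i => X i ω) p t) ∂P := by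
    intro t
    have h1 := hX.indep.indepFun_finset {p} (G.erase p) (by simp) hX.meas
    have hd := dep_upd hf p t
    have h2 : Measurable (fun v : ({p} : Finset ℕ) → ℕ =>
        (if v ⟨p, Finset.mem_singleton_self p⟩ = t then (1 : ℝ) else 0)) := Measurable.of_discrete
    have h3 : Measurable (fac (G.erase p) (fun v => f (Function.update v p t))) :=
      Measurable.of_discrete
    have h4 := h1.comp h2 h3
    have e : (fac (G.erase p) (fun v => f (Function.update v p t)))
        ∘ (fun ω (i : (G.erase p : Finset ℕ)) => X i ω)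
        = fun ω => f (Function.update (fun i => X i ω) p t) := by
      funext ω
      exact fac_eq hd (fun i => X i ω)
    rw [e] at h4
    exact h4.integral_fun_mul_eq_mul_integral
      ((h2.comp (measurable_pi_lambda _ fun i => hX.meas i)).aestronglyMeasurable)
      (meas_dep hX hd).aestronglyMeasurable
  have hp : ∀ t ∈ Icc (p - w p) (p + w p),
      ∫ ω, (if X p ω = t then (1 : ℝ) else 0) ∂P = 1 / (2 * w p + 1) := by
    intro t ht
    have e : (fun ω => if X p ω = t then (1 : ℝ) else 0) = (X p ⁻¹' {t}).indicator 1 := by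
      funext ω
      by_cases h : X p ω = t <;> simp [Set.indicator, h]
    rw [e, integral_indicator_one (hX.meas p (MeasurableSet.singleton t)), Measure.real,
      hX.unif p t ht, ENNReal.toReal_ofReal (by positivity)]
  rw [integral_congr_ae (Filter.Eventually.of_forall hsplit), integral_finsetSum]
  · rw [Finset.sum_congr rfl fun t _ => hind t, Finset.sum_congr rfl fun t ht => by rw [hp t ht]]
    unfold av
    rw [integral_div, integral_finsetSum]
    · rw [← Finset.mul_sum]
      ring
    · intro t _
      exact int_dep hX (dep_upd hf p t) (fun v => hB _)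
  · intro t _
    have h1 : Measurable fun ω => (if X p ω = t then (1 : ℝ) else 0) := by
      have : Measurable fun n : ℕ => (if n = t then (1 : ℝ) else 0) := Measurable.of_discrete
      exact this.comp (hX.meas p)
    refine Integrable.of_bound
      ((h1.mul (meas_dep hX (dep_upd hf p t))).aestronglyMeasurable) B
      (Filter.Eventually.of_forall fun ω => ?_)
    rw [Real.norm_eq_abs, abs_mul]
    have h2 := hB (Function.update (fun i => X i ω) p t)
    have h3 : 0 ≤ B := (abs_nonneg _).trans h2
    by_cases h : X p ω = t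
    · rw [if_pos h, abs_one, one_mul]; exact h2
    · rw [if_neg h, abs_zero, zero_mul]; exact h3

/-- the moment generating function -/
theorem mgf (hw : ∀ n, 4 * w n ≤ n) (hX : Displaced w P X) {c l : ℝ} (hc : 0 ≤ c) (hl : 0 ≤ l)
    (hlc : l * c ≤ 1) : ∀ (G : Finset ℕ) (f : (ℕ → ℕ) → ℝ), Dep G f → (∃ B, ∀ v, |f v| ≤ B) →
    (∀ p v s t, |f (Function.update v p s) - f (Function.update v p t)| ≤ c) →
    ∫ ω, Real.exp (-(l * f (fun i => X i ω))) ∂P
      ≤ Real.exp (G.card * (l * c) ^ 2 - l * ∫ ω, f (fun i => X i ω) ∂P) := by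
  intro G
  induction G using Finset.induction_on with
  | empty =>
    intro f hf _ _
    have h : ∀ ω, f (fun i => X i ω) = f (fun _ => 0) := fun ω => hf _ _ (by simp)
    simp_rw [h]
    simp
  | insert p G hp ih =>
    intro f hf hB hd
    obtain ⟨B, hB⟩ := hB
    have h2w : (0 : ℝ) < 2 * w p + 1 := by positivity
    have hcard : ((Icc (p - w p) (p + w p)).card : ℝ) = 2 * w p + 1 := by
      rw [card_rg hw]; push_cast; ring
    have hne : (Icc (p - w p) (p + w p)).Nonempty := by
      rw [← Finset.card_pos, card_rg hw]; omega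
    have hdep : Dep G (av w p f) := by
      have := dep_av (w := w) hf p
      rwa [Finset.erase_insert hp] at this
    have hB0 : 0 ≤ B := (abs_nonneg _).trans (hB 0)
    have hdav : ∀ q v s t, |av w p f (Function.update v q s) - av w p f (Function.update v q t)|
        ≤ c := by
      intro q v s t
      unfold av
      rw [← sub_div, ← Finset.sum_sub_distrib, abs_div, abs_of_pos h2w, div_le_iff₀ h2w]
      refine (Finset.abs_sum_le_sum_abs _ _).trans ?_
      refine (Finset.sum_le_card_nsmul _ _ c fun t' _ => ?_).trans ?_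
      · by_cases hqp : q = p
        · subst hqp
          simp [Function.update_idem, hc]
        · rw [Function.update_comm hqp, Function.update_comm hqp]
          exact hd q _ s t
      · rw [nsmul_eq_mul, hcard]
        linarith
    have key := ih (av w p f) hdep ⟨B, av_bdd hw hB p⟩ hdav
    -- the exponential of `f`
    have hfe : Dep (insert p G) (fun v => Real.exp (-(l * f v))) := by
      intro u v h
      show Real.exp (-(l * f u)) = Real.exp (-(l * f v))
      rw [hf u v h]
    have hBe : ∀ v, |Real.exp (-(l * f v))| ≤ Real.exp (l * B) := by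
      intro v
      rw [abs_of_pos (Real.exp_pos _)]
      apply Real.exp_le_exp.2
      have := (abs_le.1 (hB v)).1
      nlinarith
    rw [step hw hX hfe hBe p, step hw hX hf hB p]
    have hpt : ∀ v, av w p (fun v => Real.exp (-(l * f v))) v
        ≤ Real.exp (-(l * av w p f v)) * Real.exp ((l * c) ^ 2) := by
      intro v
      -- each value is close to the mean
      have hclose : ∀ t, |f (Function.update v p t) - av w p f v| ≤ c := by
        intro t
        have e : f (Function.update v p t) - av w p f v
            = (∑ s ∈ Icc (p - w p) (p + w p), (f (Function.update v p t)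
              - f (Function.update v p s))) / (2 * w p + 1) := by
          unfold av
          rw [Finset.sum_sub_distrib, Finset.sum_const, nsmul_eq_mul, hcard]
          field_simp
        rw [e, abs_div, abs_of_pos h2w, div_le_iff₀ h2w]
        refine (Finset.abs_sum_le_sum_abs _ _).trans ?_
        refine (Finset.sum_le_card_nsmul _ _ c fun s _ => hd p v t s).trans ?_
        rw [nsmul_eq_mul, hcard]
        linarith
      have hexp : ∀ t, Real.exp (-(l * f (Function.update v p t)))
          ≤ Real.exp (-(l * av w p f v))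
            * (1 - l * (f (Function.update v p t) - av w p f v) + (l * c) ^ 2) := by
        intro t
        have hy : |-(l * (f (Function.update v p t) - av w p f v))| ≤ 1 := by
          rw [abs_neg, abs_mul, abs_of_nonneg hl]
          exact (mul_le_mul_of_nonneg_left (hclose t) hl).trans hlc
        have h1 := Real.abs_exp_sub_one_sub_id_le hy
        have h2 := (abs_le.1 h1).2
        have h3 : (-(l * (f (Function.update v p t) - av w p f v))) ^ 2 ≤ (l * c) ^ 2 := by
          rw [neg_sq, mul_pow, mul_pow]
          have := sq_le_sq' (by linarith [(abs_le.1 (hclose t)).1]) (abs_le.1 (hclose t)).2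
          nlinarith [sq_nonneg l]
        have e : Real.exp (-(l * f (Function.update v p t)))
            = Real.exp (-(l * av w p f v))
              * Real.exp (-(l * (f (Function.update v p t) - av w p f v))) := by
          rw [← Real.exp_add]; congr 1; ring
        rw [e]
        gcongr
        linarith
      unfold av at *
      rw [div_le_iff₀ h2w]
      refine (Finset.sum_le_sum fun t _ => hexp t).trans ?_
      rw [← Finset.mul_sum, mul_assoc]
      gcongr
      rw [Finset.sum_add_distrib, Finset.sum_sub_distrib, Finset.sum_const, Finset.sum_const,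
        ← Finset.mul_sum, Finset.sum_sub_distrib, Finset.sum_const, nsmul_eq_mul, nsmul_eq_mul,
        nsmul_eq_mul, hcard]
      have e2 : (2 * (w p : ℝ) + 1) * ((∑ t ∈ Icc (p - w p) (p + w p), f (Function.update v p t))
          / (2 * w p + 1)) = ∑ t ∈ Icc (p - w p) (p + w p), f (Function.update v p t) := by
        field_simp
      rw [e2, sub_self, mul_zero, sub_zero]
      have h5 := Real.add_one_le_exp ((l * c) ^ 2)
      nlinarith
    calc ∫ ω, av w p (fun v => Real.exp (-(l * f v))) (fun i => X i ω) ∂P
        ≤ ∫ ω, Real.exp (-(l * av w p f (fun i => X i ω))) * Real.exp ((l * c) ^ 2) ∂P := by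
          apply integral_mono
          · exact int_dep hX (dep_av hfe p) (av_bdd hw hBe p)
          · refine Integrable.mul_const ?_ _
            refine int_dep hX (G := G) (f := fun v => Real.exp (-(l * av w p f v)))
              (B := Real.exp (l * B)) ?_ ?_
            · intro u v h
              show Real.exp (-(l * av w p f u)) = Real.exp (-(l * av w p f v))
              rw [hdep u v h]
            · intro v
              rw [abs_of_pos (Real.exp_pos _)]
              apply Real.exp_le_exp.2
              have := (abs_le.1 (av_bdd hw hB p v)).1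
              nlinarith
          · intro ω
            exact hpt _
      _ = (∫ ω, Real.exp (-(l * av w p f (fun i => X i ω))) ∂P) * Real.exp ((l * c) ^ 2) :=
          integral_mul_const _ _
      _ ≤ Real.exp (G.card * (l * c) ^ 2 - l * ∫ ω, av w p f (fun i => X i ω) ∂P)
            * Real.exp ((l * c) ^ 2) := by gcongr
      _ = _ := by
          rw [← Real.exp_add, Finset.card_insert_of_notMem hp]
          congr 1
          push_cast
          ring

/-- the lower tail -/
theorem tail (hw : ∀ n, 4 * w n ≤ n) (hX : Displaced w P X) {c s : ℝ} (hc : 0 < c) (hs : 0 ≤ s)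
    {G : Finset ℕ} (hG : G.Nonempty) {f : (ℕ → ℕ) → ℝ} (hf : Dep G f) (hB : ∃ B, ∀ v, |f v| ≤ B)
    (hd : ∀ p v s t, |f (Function.update v p s) - f (Function.update v p t)| ≤ c)
    (hsc : s ≤ 2 * G.card * c) :
    P.real {ω | f (fun i => X i ω) ≤ (∫ ω, f (fun i => X i ω) ∂P) - s}
      ≤ Real.exp (-(s ^ 2 / (4 * G.card * c ^ 2))) := by
  have hG0 : (0 : ℝ) < G.card := by exact_mod_cast Finset.card_pos.2 hG
  obtain ⟨l, hl⟩ : ∃ l, l = s / (2 * G.card * c ^ 2) := ⟨_, rfl⟩
  have hl0 : 0 ≤ l := by rw [hl]; positivity
  have hlc : l * c ≤ 1 := by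
    rw [hl, div_mul_eq_mul_div, div_le_one (by positivity)]
    nlinarith
  have h1 := mgf hw hX hc.le hl0 hlc G f hf hB hd
  obtain ⟨B, hB⟩ := hB
  set m := ∫ ω, f (fun i => X i ω) ∂P with hm
  have hmeas := meas_dep hX hf
  have hint : Integrable (fun ω => Real.exp (-(l * f (fun i => X i ω)))) P := by
    refine int_dep hX (G := G) (f := fun v => Real.exp (-(l * f v)))
      (B := Real.exp (l * B)) ?_ ?_
    · intro u v h
      show Real.exp (-(l * f u)) = Real.exp (-(l * f v))
      rw [hf u v h]
    · intro v
      rw [abs_of_pos (Real.exp_pos _)]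
      apply Real.exp_le_exp.2
      have := (abs_le.1 (hB v)).1
      nlinarith
  have h2 := mul_meas_ge_le_integral_of_nonneg (μ := P)
    (Filter.Eventually.of_forall fun ω => (Real.exp_pos (-(l * f (fun i => X i ω)))).le) hint
    (Real.exp (-(l * (m - s))))
  have h3 : {ω | f (fun i => X i ω) ≤ m - s}
      ⊆ {ω | Real.exp (-(l * (m - s))) ≤ Real.exp (-(l * f (fun i => X i ω)))} := by
    intro ω hω
    show Real.exp (-(l * (m - s))) ≤ Real.exp (-(l * f (fun i => X i ω)))
    apply Real.exp_le_exp.2
    have hω : f (fun i => X i ω) ≤ m - s := hω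
    nlinarith
  have h4 : P.real {ω | f (fun i => X i ω) ≤ m - s}
      ≤ P.real {ω | Real.exp (-(l * (m - s))) ≤ Real.exp (-(l * f (fun i => X i ω)))} :=
    measureReal_mono h3
  have h5 : Real.exp (-(l * (m - s))) * P.real {ω | f (fun i => X i ω) ≤ m - s}
      ≤ Real.exp (G.card * (l * c) ^ 2 - l * m) :=
    le_trans (mul_le_mul_of_nonneg_left h4 (Real.exp_pos _).le) (h2.trans h1)
  have h6 : Real.exp (G.card * (l * c) ^ 2 - l * m)
      = Real.exp (-(l * (m - s))) * Real.exp (-(s ^ 2 / (4 * G.card * c ^ 2))) := by
    rw [← Real.exp_add]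
    congr 1
    rw [hl]
    field_simp
    ring
  rw [h6] at h5
  exact le_of_mul_le_mul_left h5 (Real.exp_pos _)

end Pool.Agent.K4H61.DP
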