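import Mathlib
import Pool.Agent.K4H77.DA
import Pool.Agent.Helper601.BT

/-!
# Displaced primes: few primes can be moved near a given point
-/

set_option autoImplicit false

open MeasureTheory ProbabilityTheory Filter Finset
open scoped Topology

namespace Pool.Agent.K4H61.DP

open Pool.Agent.K4H77.Displ

/-- the primes of an interval -/
theorem card_primes_le : ∃ C : ℝ, 1 ≤ C ∧ ∀ (a N : ℕ), 2 ≤ N →
    (((Ico a (a + N)).filter Nat.Prime).card : ℝ) ≤ C * N / Real.log N := by
  obtain ⟨C, hC1, hC⟩ := Pool.Agent.Helper601.brun_titchmarsh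
  refine ⟨C, hC1, fun a N hN => ?_⟩
  refine le_trans ?_ (hC a 1 N hN (Or.inl rfl))
  have h : ((Ico a (a + N)).filter Nat.Prime).card
      ≤ ((Finset.range N).filter (fun k => (a + k * 1).Prime)).card := by
    refine Finset.card_le_card_of_injOn (fun p => p - a) ?_ ?_
    · intro p hp
      simp only [Finset.coe_filter, Finset.mem_Ico, Set.mem_ofPred_eq] at hp
      simp only [Finset.coe_filter, Finset.mem_range, Set.mem_ofPred_eq]
      obtain ⟨⟨h1, h2⟩, h3⟩ := hp
      refine ⟨by omega, ?_⟩
      rw [mul_one, Nat.add_sub_cancel' h1]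
      exact h3
    · intro p hp q hq hpq
      simp only [Finset.coe_filter, Finset.mem_Ico, Set.mem_ofPred_eq] at hp hq
      simp only at hpq
      omega
  exact_mod_cast h

variable {w : ℕ → ℕ}

/-- comparability of the widths at large comparable points -/
def Comp (w : ℕ → ℕ) (C : ℕ) : Prop :=
  ∃ n₀, ∀ m n, n₀ ≤ m → n₀ ≤ n → m ≤ 2 * n → n ≤ 2 * m → w m ≤ C * w n

/-- the expected number of displaced primes in a bounded window tends to zero -/
theorem eta (hw : ∀ n, 4 * w n ≤ n) {C : ℕ} (hC : Comp w C) (hinf : Tendsto w atTop atTop)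
    (D : ℕ) {η : ℝ} (hη : 0 < η) : ∀ᶠ n in atTop, ∀ (M : ℕ) (F : Finset ℕ),
      (∀ f ∈ F, f < D) → ∑ p ∈ (Iic M).filter Nat.Prime, pr w p (F.image (n + ·)) ≤ η := by
  obtain ⟨B, hB1, hB⟩ := card_primes_le
  obtain ⟨n₀, hC⟩ := hC
  -- the final bound
  obtain ⟨K, hK⟩ : ∃ K : ℝ, K = B * (2 * C + 2 * D + 1) * (D * C) := ⟨_, rfl⟩
  have hlog : Tendsto (fun n => Real.log (w n : ℝ)) atTop atTop :=
    Real.tendsto_log_atTop.comp (tendsto_natCast_atTop_atTop.comp hinf)
  filter_upwards [eventually_ge_atTop (3 * D + 1), hinf.eventually_ge_atTop 2,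
    hlog.eventually_ge_atTop (K / η), hlog.eventually_gt_atTop 0,
    eventually_ge_atTop (2 * n₀)] with n hn hwn hl hl0 hn₀ M F hF
  have hC0 : 1 ≤ C := by
    have h1 := hC n n (by omega) (by omega) (by omega) (by omega)
    by_contra hcon
    have : C = 0 := by omega
    subst this
    omega
  set N := 2 * (C * w n + D) + 1 with hN
  set a := n - (C * w n + D) with ha
  -- the relevant primes
  have hrel : ∀ p ∈ (Iic M).filter Nat.Prime, pr w p (F.image (n + ·)) ≤
      if p ∈ (Ico a (a + N)).filter Nat.Prime then (D : ℝ) * C / w n else 0 := by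
    intro p hp
    have hpp := (Finset.mem_filter.1 hp).2
    by_cases hdis : Disjoint (F.image (n + ·)) (Icc (p - w p) (p + w p))
    · rw [pr_eq_zero hdis]
      split_ifs <;> positivity
    · rw [Finset.not_disjoint_iff] at hdis
      obtain ⟨u, hu1, hu2⟩ := hdis
      obtain ⟨f, hf, rfl⟩ := Finset.mem_image.1 hu1
      rw [Finset.mem_Icc] at hu2
      have hfD := hF f hf
      have hwp := hw p
      have h1 : p ≤ 2 * n := by omega
      have h2 : n ≤ 2 * p := by omega
      have h3 := hC p n (by omega) (by omega) h1 h2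
      have h4 := hC n p (by omega) (by omega) h2 h1
      have h5 : p ∈ (Ico a (a + N)).filter Nat.Prime := by
        rw [Finset.mem_filter, Finset.mem_Ico]
        refine ⟨⟨by omega, by omega⟩, hpp⟩
      rw [if_pos h5]
      refine (pr_le_card p _).trans ?_
      have h6 : (((F.image (n + ·)).card : ℕ) : ℝ) ≤ D := by
        have h7 : (F.image (n + ·)).card ≤ F.card := Finset.card_image_le
        have h8 : F.card ≤ D := by
          have : F ⊆ Finset.range D := fun f hf => Finset.mem_range.2 (hF f hf)
          simpa using Finset.card_le_card this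
        exact_mod_cast h7.trans h8
      have h9 : (w n : ℝ) ≤ C * w p := by exact_mod_cast h4
      have hwn0 : (0 : ℝ) < w n := by
        have : 0 < w n := by omega
        exact_mod_cast this
      rw [div_le_div_iff₀ (by positivity) hwn0]
      have h10 : (0 : ℝ) ≤ D := by positivity
      have h11 : (0 : ℝ) ≤ w p := by positivity
      have h12 : (0 : ℝ) ≤ C := by positivity
      calc (((F.image (n + ·)).card : ℕ) : ℝ) * w n ≤ D * w n := by gcongr
        _ ≤ D * (C * w p) := by gcongr
        _ ≤ D * C * (2 * w p + 1) := by nlinarith [mul_nonneg (mul_nonneg h10 h12) h11, mul_nonneg h10 h12]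
  refine (Finset.sum_le_sum hrel).trans ?_
  rw [← Finset.sum_filter, Finset.sum_const, nsmul_eq_mul]
  have h1 : (((((Iic M).filter Nat.Prime).filter
      (fun p => p ∈ (Ico a (a + N)).filter Nat.Prime)).card : ℕ) : ℝ) ≤ B * N / Real.log N := by
    have hCw : 0 < C * w n := Nat.mul_pos (by omega) (by omega)
    refine le_trans ?_ (hB a N (by omega))
    have : (((Iic M).filter Nat.Prime).filter (fun p => p ∈ (Ico a (a + N)).filter Nat.Prime))
        ⊆ (Ico a (a + N)).filter Nat.Prime := fun p hp => (Finset.mem_filter.1 hp).2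
    exact_mod_cast Finset.card_le_card this
  have hwn0 : (0 : ℝ) < w n := by
    have : 0 < w n := by omega
    exact_mod_cast this
  have hwn1 : (1 : ℝ) ≤ w n := by
    have : 1 ≤ w n := by omega
    exact_mod_cast this
  have hNw : (w n : ℝ) ≤ N := by
    have : w n ≤ N := by
      have : w n ≤ C * w n := Nat.le_mul_of_pos_left _ hC0
      omega
    exact_mod_cast this
  have hNle : (N : ℝ) ≤ (2 * C + 2 * D + 1) * w n := by
    rw [hN]
    push_cast
    have : (0 : ℝ) ≤ D := by positivity
    nlinarith
  have hlogN : Real.log (w n) ≤ Real.log N := Real.log_le_log hwn0 hNw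
  calc (((((Iic M).filter Nat.Prime).filter
      (fun p => p ∈ (Ico a (a + N)).filter Nat.Prime)).card : ℕ) : ℝ) * (D * C / w n)
      ≤ (B * N / Real.log N) * (D * C / w n) := by gcongr
    _ ≤ (B * ((2 * C + 2 * D + 1) * w n) / Real.log (w n)) * (D * C / w n) := by
        have : (0 : ℝ) ≤ B := by linarith
        gcongr
    _ = K / Real.log (w n) := by
        rw [hK]
        field_simp
    _ ≤ η := by
        rw [div_le_iff₀ hl0]
        rw [div_le_iff₀ hη] at hl
        linarith

end Pool.Agent.K4H61.DP
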