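import Mathlib
import Pool.Agent.K4H77.DA

/-!
# Displaced primes: the probability of a pattern
-/

set_option autoImplicit false

open MeasureTheory ProbabilityTheory Filter Finset
open scoped Topology

namespace Pool.Agent.K4H61.DP

open Pool.Agent.K4H77.Displ

/-- a sum over injective maps -/
theorem sum_inj {α : Type*} [Fintype α] [DecidableEq α] (q : α → ℝ) (hq0 : ∀ a, 0 ≤ q a)
    {q0 t : ℝ} (hq : ∀ a, q a ≤ q0) (h0 : 0 ≤ q0) (ht : 0 ≤ t) {K : ℕ}
    (hK : t + ((K : ℝ) - 1) * q0 ≤ ∑ a, q a) : ∀ k ≤ K,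
    t ^ k ≤ ∑ σ : Fin k → α, if Function.Injective σ then ∏ i, q (σ i) else 0 := by
  intro k
  induction k with
  | zero =>
    intro _
    rw [Fintype.sum_unique, if_pos (Function.injective_of_subsingleton _)]
    simp
  | succ k ih =>
    intro hk
    have ih := ih (by omega)
    rw [← (Fin.consEquiv (fun _ => α)).sum_comp, Fintype.sum_prod_type_right]
    have key : ∀ σ : Fin k → α, (if Function.Injective σ then ∏ i, q (σ i) else 0) * t
        ≤ ∑ x : α, (if Function.Injective (Fin.consEquiv (fun _ => α) (x, σ)) then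
          ∏ i, q (Fin.consEquiv (fun _ => α) (x, σ) i) else 0) := by
      intro σ
      by_cases hσ : Function.Injective σ
      · rw [if_pos hσ]
        have e : ∀ x : α, (if Function.Injective (Fin.consEquiv (fun _ => α) (x, σ)) then
            ∏ i, q (Fin.consEquiv (fun _ => α) (x, σ) i) else 0)
            = (∏ i, q (σ i)) * (if x ∈ Finset.univ.image σ then 0 else q x) := by
          intro x
          have e1 : (Fin.consEquiv (fun _ : Fin (k + 1) => α) (x, σ)) = Fin.cons x σ := rfl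
          rw [e1]
          have e2 : Function.Injective (Fin.cons x σ : Fin (k + 1) → α)
              ↔ x ∉ Finset.univ.image σ := by
            rw [Fin.cons_injective_iff]
            simp [hσ]
          by_cases hx : x ∈ Finset.univ.image σ
          · rw [if_neg (by rw [e2]; exact not_not.2 hx), if_pos hx, mul_zero]
          · rw [if_pos (by rw [e2]; exact hx), if_neg hx, Fin.prod_univ_succ]
            simp only [Fin.cons_zero, Fin.cons_succ]
            ring
        rw [Finset.sum_congr rfl fun x _ => e x, ← Finset.mul_sum]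
        refine mul_le_mul_of_nonneg_left ?_ (Finset.prod_nonneg fun i _ => hq0 _)
        have e3 : ∑ x : α, (if x ∈ Finset.univ.image σ then 0 else q x)
            = ∑ x, q x - ∑ x ∈ Finset.univ.image σ, q x := by
          rw [eq_sub_iff_add_eq, ← Finset.sum_filter_add_sum_filter_not Finset.univ
            (fun x => x ∈ Finset.univ.image σ) q, add_comm]
          congr 1
          · exact Finset.sum_congr (by ext; simp) fun _ _ => rfl
          · rw [Finset.sum_filter]
            exact Finset.sum_congr rfl fun x _ => by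
              by_cases hx : x ∈ Finset.univ.image σ <;> simp [hx]
        rw [e3]
        have h4 : ∑ x ∈ Finset.univ.image σ, q x ≤ k * q0 := by
          refine (Finset.sum_le_card_nsmul _ _ q0 fun x _ => hq x).trans ?_
          rw [nsmul_eq_mul]
          gcongr
          refine Finset.card_image_le.trans ?_
          simp
        have h5 : (k : ℝ) * q0 ≤ ((K : ℝ) - 1) * q0 := by
          gcongr
          have : ((k + 1 : ℕ) : ℝ) ≤ K := by exact_mod_cast hk
          push_cast at this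
          linarith
        linarith
      · rw [if_neg hσ, zero_mul]
        refine Finset.sum_nonneg fun x _ => ?_
        split_ifs
        · exact Finset.prod_nonneg fun i _ => hq0 _
        · exact le_rfl
    calc t ^ (k + 1) = t ^ k * t := pow_succ _ _
      _ ≤ (∑ σ : Fin k → α, if Function.Injective σ then ∏ i, q (σ i) else 0) * t := by gcongr
      _ = ∑ σ : Fin k → α, (if Function.Injective σ then ∏ i, q (σ i) else 0) * t :=
          Finset.sum_mul _ _ _
      _ ≤ _ := Finset.sum_le_sum fun σ _ => key σ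

theorem one_sub_le_prod {ι : Type*} (s : Finset ι) (a : ι → ℝ) (h0 : ∀ i ∈ s, 0 ≤ a i)
    (h1 : ∀ i ∈ s, a i ≤ 1) : 1 - ∑ i ∈ s, a i ≤ ∏ i ∈ s, (1 - a i) := by
  classical
  induction s using Finset.induction_on with
  | empty => simp
  | insert i s hi ih =>
    rw [Finset.sum_insert hi, Finset.prod_insert hi]
    have ih := ih (fun j hj => h0 j (Finset.mem_insert_of_mem hj))
      (fun j hj => h1 j (Finset.mem_insert_of_mem hj))
    have a0 := h0 i (Finset.mem_insert_self _ _)
    have a1 := h1 i (Finset.mem_insert_self _ _)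
    have h2 : ∏ j ∈ s, (1 - a j) ≤ 1 :=
      Finset.prod_le_one (fun j hj => by linarith [h1 j (Finset.mem_insert_of_mem hj)])
        (fun j hj => by linarith [h0 j (Finset.mem_insert_of_mem hj)])
    nlinarith

variable {Ω : Type*} [MeasurableSpace Ω] {w : ℕ → ℕ} {P : Measure Ω} [IsProbabilityMeasure P]
  {X : ℕ → Ω → ℕ}

/-- the pattern `H` inside `F` at `n` -/
def pat (X : ℕ → Ω → ℕ) (F H : Finset ℕ) (n : ℕ) : Set Ω :=
  {ω | ∀ f ∈ F, (n + f ∈ dset X ω ↔ f ∈ H)}

/-- the allowed positions of `p` -/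
def Bs (U : Finset ℕ) {k : ℕ} (y : Fin k → ℕ) (σ : Fin k → ℕ) (p : ℕ) : Set ℕ :=
  {u | (∀ i, σ i = p → u = y i) ∧ ((∀ i, σ i ≠ p) → u ∉ U)}

/-- the primes `σ i` are moved to `y i`, and no other prime is moved into `U` -/
def Es (X : ℕ → Ω → ℕ) (G U : Finset ℕ) {k : ℕ} (y : Fin k → ℕ) (σ : Fin k → ℕ) : Set Ω :=
  ⋂ p ∈ G, X p ⁻¹' (Bs U y σ p)

theorem Es_meas (hX : Displaced w P X) (G U : Finset ℕ) {k : ℕ} (y : Fin k → ℕ)
    (σ : Fin k → ℕ) : MeasurableSet (Es X G U y σ) :=
  Finset.measurableSet_biInter _ fun p _ => hX.meas p (MeasurableSet.of_discrete)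

theorem Es_prob (hw : ∀ n, 4 * w n ≤ n) (hX : Displaced w P X) {G U : Finset ℕ} {k : ℕ}
    {y : Fin k → ℕ} {σ : Fin k → ℕ} (hσ : Function.Injective σ) (hG : ∀ i, σ i ∈ G)
    (hy : ∀ i, y i ∈ Icc (σ i - w (σ i)) (σ i + w (σ i))) {η : ℝ}
    (hη : ∑ p ∈ G, pr w p U ≤ η) (hη1 : η ≤ 1) :
    (1 - η) * ∏ i, (1 / (2 * (w (σ i) : ℝ) + 1)) ≤ P.real (Es X G U y σ) := by
  have h1 : P.real (Es X G U y σ) = ∏ p ∈ G, P.real (X p ⁻¹' (Bs U y σ p)) := by
    unfold Es
    rw [Measure.real, hX.indep.measure_inter_preimage_eq_mul _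
      (fun p _ => MeasurableSet.of_discrete), ENNReal.toReal_prod]
    rfl
  have hsub : Finset.univ.image σ ⊆ G := by
    intro p hp
    obtain ⟨i, -, rfl⟩ := Finset.mem_image.1 hp
    exact hG i
  have h2 : ∀ i, P.real (X (σ i) ⁻¹' (Bs U y σ (σ i))) = 1 / (2 * (w (σ i) : ℝ) + 1) := by
    intro i
    have e : Bs U y σ (σ i) = {y i} := by
      ext u
      constructor
      · rintro ⟨hu, -⟩
        exact hu i rfl
      · rintro rfl
        exact ⟨fun j hj => by rw [hσ hj], fun h => absurd rfl (h i)⟩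
    rw [e, Measure.real, hX.unif _ _ (hy i), ENNReal.toReal_ofReal (by positivity)]
  have h3 : ∀ p ∈ G \ Finset.univ.image σ, P.real (X p ⁻¹' (Bs U y σ p)) = 1 - pr w p U := by
    intro p hp
    have hp' : ∀ i, σ i ≠ p := by
      intro i h
      exact (Finset.mem_sdiff.1 hp).2 (Finset.mem_image.2 ⟨i, Finset.mem_univ _, h⟩)
    have e : Bs U y σ p = ((U : Finset ℕ) : Set ℕ)ᶜ := by
      ext u
      constructor
      · rintro ⟨-, hu⟩
        exact hu hp'
      · intro hu
        exact ⟨fun i hi => absurd hi (hp' i), fun _ => hu⟩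
    rw [e]
    exact prob_out hw hX p U
  rw [h1, ← Finset.prod_sdiff hsub, Finset.prod_congr rfl h3,
    Finset.prod_image (fun i _ j _ h => hσ h), Finset.prod_congr rfl fun i _ => h2 i]
  refine mul_le_mul_of_nonneg_right ?_ (Finset.prod_nonneg fun i _ => by positivity)
  refine le_trans ?_ (one_sub_le_prod _ _ (fun p _ => pr_nonneg p U) (fun p _ => pr_le_one hw p U))
  have h4 : ∑ p ∈ G \ Finset.univ.image σ, pr w p U ≤ ∑ p ∈ G, pr w p U :=
    Finset.sum_le_sum_of_subset_of_nonneg Finset.sdiff_subset fun p _ _ => pr_nonneg p U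
  linarith

theorem Es_disj {G U : Finset ℕ} {k : ℕ} {y : Fin k → ℕ} (hy : Function.Injective y)
    (hyU : ∀ i, y i ∈ U) {σ τ : Fin k → ℕ} (hσ : ∀ i, σ i ∈ G) (hne : σ ≠ τ) :
    Disjoint (Es X G U y σ) (Es X G U y τ) := by
  rw [Set.disjoint_left]
  intro ω h1 h2
  apply hne
  funext i
  simp only [Es, Set.mem_iInter, Set.mem_preimage] at h1 h2
  have a1 : X (σ i) ω = y i := (h1 (σ i) (hσ i)).1 i rfl
  by_contra hcon
  have a2 := h2 (σ i) (hσ i)
  by_cases hr : ∀ j, τ j ≠ σ i
  · exact a2.2 hr (a1 ▸ hyU i)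
  · push Not at hr
    obtain ⟨j, hj⟩ := hr
    have a3 := a2.1 j hj
    rw [a1] at a3
    have := hy a3
    subst this
    exact hcon hj.symm

theorem Es_sub {F H : Finset ℕ} {n M : ℕ} (hHF : H ⊆ F)
    (hM : ∀ p : ℕ, p.Prime → M < p → Disjoint (F.image (n + ·)) (Icc (p - w p) (p + w p)))
    (hmem : ∀ p ω, X p ω ∈ Icc (p - w p) (p + w p))
    {k : ℕ} {h : Fin k → ℕ} (hh : ∀ f, f ∈ H ↔ ∃ i, h i = f) {σ : Fin k → ℕ}
    (hσ : ∀ i, σ i ∈ (Iic M).filter Nat.Prime) :
    Es X ((Iic M).filter Nat.Prime) (F.image (n + ·)) (fun i => n + h i) σ ⊆ pat X F H n := by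
  intro ω hω f hf
  simp only [Es, Set.mem_iInter, Set.mem_preimage] at hω
  constructor
  · rintro ⟨p, hp, hpf⟩
    have hU : n + f ∈ F.image (n + ·) := Finset.mem_image_of_mem _ hf
    have hpM : p ≤ M := by
      by_contra hcon
      push Not at hcon
      refine Finset.disjoint_left.1 (hM p hp hcon) hU ?_
      rw [← hpf]
      exact hmem p ω
    have a1 := hω p (Finset.mem_filter.2 ⟨Finset.mem_Iic.2 hpM, hp⟩)
    by_cases hr : ∀ i, σ i ≠ p
    · exact absurd (hpf ▸ hU) (a1.2 hr)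
    · push Not at hr
      obtain ⟨i, hi⟩ := hr
      have a2 : X p ω = n + h i := a1.1 i hi
      rw [hpf] at a2
      rw [hh]
      exact ⟨i, by omega⟩
  · intro hfH
    obtain ⟨i, rfl⟩ := (hh f).1 hfH
    exact ⟨σ i, (Finset.mem_filter.1 (hσ i)).2, (hω (σ i) (hσ i)).1 i rfl⟩

theorem pat_meas (hw : ∀ n, 4 * w n ≤ n) (hX : Displaced w P X) (F H : Finset ℕ) (n : ℕ) :
    MeasurableSet (pat X F H n) := by
  have h1 : ∀ m, MeasurableSet {ω | m ∈ dset X ω} := by
    intro m
    have : {ω | m ∈ dset X ω} = (miss X {m})ᶜ := by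
      ext ω
      simp only [dset, miss, Set.mem_ofPred_eq, Set.mem_compl_iff, Finset.mem_singleton]
      push Not
      rfl
    rw [this]
    exact (miss_meas hw hX _).compl
  have h2 : pat X F H n = ⋂ f ∈ F, {ω | (n + f ∈ dset X ω ↔ f ∈ H)} := by
    ext ω
    simp [pat]
  rw [h2]
  refine Finset.measurableSet_biInter _ fun f _ => ?_
  by_cases hf : f ∈ H
  · have e : {ω | (n + f ∈ dset X ω ↔ f ∈ H)} = {ω | n + f ∈ dset X ω} := by
      ext ω
      simp [hf]
    rw [e]
    exact h1 (n + f)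
  · have e : {ω | (n + f ∈ dset X ω ↔ f ∈ H)} = {ω | n + f ∈ dset X ω}ᶜ := by
      ext ω
      simp [hf]
    rw [e]
    exact (h1 (n + f)).compl

/-- lower bound for the probability of a pattern -/
theorem pat_prob (hw : ∀ n, 4 * w n ≤ n) (hX : Displaced w P X) {F H : Finset ℕ} (hHF : H ⊆ F)
    (hH : H.Nonempty) {n M : ℕ}
    (hM : ∀ p : ℕ, p.Prime → M < p → Disjoint (F.image (n + ·)) (Icc (p - w p) (p + w p)))
    {Q : Finset ℕ} (hQ : ∀ p ∈ Q, p.Prime ∧ ∀ f ∈ F, n + f ∈ Icc (p - w p) (p + w p))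
    {η q0 t : ℝ} (hη : ∑ p ∈ (Iic M).filter Nat.Prime, pr w p (F.image (n + ·)) ≤ η)
    (hη1 : η ≤ 1) (hq0 : 0 ≤ q0) (hq : ∀ p ∈ Q, 1 / (2 * (w p : ℝ) + 1) ≤ q0) (ht : 0 ≤ t)
    (hK : t + ((H.card : ℝ) - 1) * q0 ≤ ∑ p ∈ Q, 1 / (2 * (w p : ℝ) + 1)) :
    (1 - η) * t ^ H.card ≤ P.real (pat X F H n) := by
  classical
  set k := H.card with hk
  let h : Fin k → ℕ := fun i => H.orderEmbOfFin hk.symm i
  have hinj : Function.Injective h := (H.orderEmbOfFin hk.symm).injective
  have hh : ∀ f, f ∈ H ↔ ∃ i, h i = f := by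
    intro f
    have := Finset.range_orderEmbOfFin H hk.symm
    rw [← Finset.mem_coe, ← this]
    rfl
  have hQG : ∀ p ∈ Q, p ∈ (Iic M).filter Nat.Prime := by
    intro p hp
    obtain ⟨h1, h2⟩ := hQ p hp
    refine Finset.mem_filter.2 ⟨?_, h1⟩
    rw [Finset.mem_Iic]
    by_contra hcon
    push Not at hcon
    obtain ⟨f, hf⟩ := hH
    exact Finset.disjoint_left.1 (hM p h1 hcon) (Finset.mem_image_of_mem _ (hHF hf))
      (h2 f (hHF hf))
  set G := (Iic M).filter Nat.Prime with hG
  set U := F.image (n + ·) with hU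
  have hs := sum_inj (α := Q) (fun p => 1 / (2 * (w p : ℝ) + 1)) (fun p => by positivity)
    (fun p => hq p p.2) hq0 ht (K := k) (by
      rw [Finset.sum_coe_sort Q (fun p => 1 / (2 * (w p : ℝ) + 1))]
      exact hK) k le_rfl
  let S : Finset (Fin k → Q) := Finset.univ.filter Function.Injective
  have hle : ∑ σ ∈ S, P.real (Es X G U (fun i => n + h i) (fun i => (σ i : ℕ)))
      ≤ P.real (pat X F H n) := by
    rw [← measureReal_biUnion_finset]
    · exact measureReal_mono
        (Set.iUnion₂_subset fun σ _ => Es_sub hHF hM hX.mem hh (fun i => hQG _ (σ i).2))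
        (measure_ne_top _ _)
    · intro σ _ τ _ hne
      refine Es_disj (fun i j hij => hinj (Nat.add_left_cancel hij)) (fun i => ?_)
        (fun i => hQG _ (σ i).2) (fun hcon => hne ?_)
      · exact Finset.mem_image_of_mem _ (hHF ((hh _).2 ⟨i, rfl⟩))
      · funext i
        exact Subtype.ext (congrFun hcon i)
    · intro σ _
      exact Es_meas hX _ _ _ _
  refine le_trans ?_ hle
  calc (1 - η) * t ^ k
      ≤ (1 - η) * ∑ σ : Fin k → Q, (if Function.Injective σ then
          ∏ i, (1 / (2 * (w (σ i) : ℝ) + 1)) else 0) :=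
        mul_le_mul_of_nonneg_left hs (by linarith)
    _ = ∑ σ ∈ S, (1 - η) * ∏ i, (1 / (2 * (w (σ i) : ℝ) + 1)) := by
        rw [← Finset.sum_filter, Finset.mul_sum]
    _ ≤ _ := by
        refine Finset.sum_le_sum fun σ hσ => ?_
        have hσi : Function.Injective σ := (Finset.mem_filter.1 hσ).2
        refine Es_prob hw hX (σ := fun i => (σ i : ℕ))
          (fun i j hij => hσi (Subtype.ext hij)) (fun i => hQG _ (σ i).2) (fun i => ?_) hη hη1
        exact (hQ _ (σ i).2).2 _ (hHF ((hh _).2 ⟨i, rfl⟩))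

end Pool.Agent.K4H61.DP
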