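import Mathlib
import Pool.Agent.K4H77.DC
import Pool.Agent.K4H61.DP.Pat
import Pool.Agent.K4H61.DP.Eta

/-!
# Displaced primes: the expected number of patterns
-/

set_option autoImplicit false

open MeasureTheory ProbabilityTheory Filter Finset
open scoped Topology

namespace Pool.Agent.K4H61.DP

open Pool.Agent.K4H77.Displ

variable {w : ℕ → ℕ}

/-- the primes in `(a, b]` whose window contains the `D` integers from `n` on -/
def Qs (w : ℕ → ℕ) (D a b n : ℕ) : Finset ℕ :=
  ((Ioc a b).filter Nat.Prime).filter (fun p => p - w p ≤ n ∧ n + D ≤ p + w p + 1)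

/-- the total weight of these primes -/
noncomputable def As (w : ℕ → ℕ) (D a b n : ℕ) : ℝ := ∑ p ∈ Qs w D a b n, 1 / (2 * (w p : ℝ) + 1)

theorem sum_As (hw : ∀ n, 4 * w n ≤ n) {D a b x : ℕ} {θ : ℝ}
    (h1 : ∀ p, a < p → (D : ℝ) ≤ θ * (2 * w p + 1)) (h2 : ∀ p, a < p → p ≤ b → p + w p + 1 ≤ x)
    (ha : 4 ≤ a) :
    (1 - θ) * ((Ioc a b).filter Nat.Prime).card ≤ ∑ n ∈ Icc 1 x, As w D a b n := by
  have e : ∑ n ∈ Icc 1 x, As w D a b n = ∑ p ∈ (Ioc a b).filter Nat.Prime,
      ∑ n ∈ (Icc 1 x).filter (fun n => p - w p ≤ n ∧ n + D ≤ p + w p + 1),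
        1 / (2 * (w p : ℝ) + 1) := by
    unfold As Qs
    simp only [Finset.sum_filter (s := (Ioc a b).filter Nat.Prime), Finset.sum_filter (s := Icc 1 x)]
    exact Finset.sum_comm
  rw [e, mul_comm, ← nsmul_eq_mul]
  refine Finset.card_nsmul_le_sum _ _ _ fun p hp => ?_
  rw [Finset.mem_filter, Finset.mem_Ioc] at hp
  obtain ⟨⟨hp1, hp2⟩, hp3⟩ := hp
  rw [Finset.sum_const, nsmul_eq_mul]
  have hwp := hw p
  have h3 := h2 p hp1 hp2
  have h4 : (2 * (w p : ℝ) + 1) - D ≤
      (((Icc 1 x).filter (fun n => p - w p ≤ n ∧ n + D ≤ p + w p + 1)).card : ℝ) := by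
    by_cases hD : D ≤ 2 * w p + 1
    · have h5 : Icc (p - w p) (p + w p + 1 - D) ⊆
          (Icc 1 x).filter (fun n => p - w p ≤ n ∧ n + D ≤ p + w p + 1) := by
        intro n hn
        rw [Finset.mem_Icc] at hn
        rw [Finset.mem_filter, Finset.mem_Icc]
        refine ⟨⟨by omega, by omega⟩, by omega, by omega⟩
      have h6 := Finset.card_le_card h5
      rw [Nat.card_Icc] at h6
      have h7 : 2 * w p + 1 ≤
          ((Icc 1 x).filter (fun n => p - w p ≤ n ∧ n + D ≤ p + w p + 1)).card + D := by omega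
      have h8 : ((2 * w p + 1 : ℕ) : ℝ) ≤
          ((((Icc 1 x).filter (fun n => p - w p ≤ n ∧ n + D ≤ p + w p + 1)).card + D : ℕ) : ℝ) := by
        exact_mod_cast h7
      push_cast at h8
      linarith
    · push Not at hD
      have h5 : ((2 * w p + 1 : ℕ) : ℝ) ≤ D := by exact_mod_cast hD.le
      push_cast at h5
      have h6 : (0 : ℝ) ≤
        (((Icc 1 x).filter (fun n => p - w p ≤ n ∧ n + D ≤ p + w p + 1)).card : ℝ) := by positivity
      linarith
  have h5 := h1 p hp1
  rw [mul_one_div, le_div_iff₀ (by positivity)]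
  linarith

theorem sum_As_ev (hw : ∀ n, 4 * w n ≤ n)
    (hlin : Tendsto (fun n : ℕ => (w n : ℝ) / n) atTop (𝓝 0)) (hinf : Tendsto w atTop atTop)
    (D : ℕ) {θ : ℝ} (hθ : 0 < θ) (hθ1 : θ ≤ 1) : ∃ δ : ℝ, 0 < δ ∧ δ < 1 / 4 ∧
      ∀ᶠ x : ℕ in atTop, (1 - θ) * (x / Real.log x) ≤
        ∑ n ∈ Icc 1 x, As w D ⌊δ * x⌋₊ ⌊(1 - δ) * x⌋₊ n := by
  obtain ⟨δ, hδ⟩ : ∃ δ, δ = θ / 8 := ⟨_, rfl⟩
  have hδ0 : 0 < δ := by rw [hδ]; positivity
  have hδ1 : δ < 1 / 4 := by rw [hδ]; linarith
  refine ⟨δ, hδ0, hδ1, ?_⟩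
  have hfl : Tendsto (fun x : ℕ => ⌊δ * x⌋₊) atTop atTop :=
    tendsto_nat_floor_atTop.comp ((tendsto_natCast_atTop_atTop (R := ℝ)).const_mul_atTop hδ0)
  -- the width is large
  have hwR : Tendsto (fun n => (w n : ℝ)) atTop atTop := tendsto_natCast_atTop_atTop.comp hinf
  obtain ⟨p1, hp1⟩ := eventually_atTop.1 (hwR.eventually_ge_atTop (2 * D / θ))
  obtain ⟨p2, hp2⟩ := eventually_atTop.1 (hlin.eventually_le_const (show 0 < δ / 2 by positivity))
  have hpnt := (pnt_scale (show 0 < 1 - δ by linarith)).sub (pnt_scale hδ0)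
  filter_upwards [hfl.eventually_ge_atTop (max 4 (max p1 p2)),
    hpnt.eventually_const_le (show 1 - 3 * δ < 1 - δ - δ by linarith), tlog.eventually_gt_atTop 0,
    (tendsto_natCast_atTop_atTop (R := ℝ)).eventually_ge_atTop (2 / δ),
    eventually_ge_atTop 1] with x hx1 hx2 hl hx3 hx4
  have hx0 : (0 : ℝ) < x := by exact_mod_cast hx4
  set a := ⌊δ * x⌋₊ with ha
  set b := ⌊(1 - δ) * x⌋₊ with hb
  have ha4 : 4 ≤ a := (le_max_left _ _).trans hx1
  have hap1 : p1 ≤ a := ((le_max_left _ _).trans (le_max_right _ _)).trans hx1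
  have hap2 : p2 ≤ a := ((le_max_right _ _).trans (le_max_right _ _)).trans hx1
  have hbx : (b : ℝ) ≤ (1 - δ) * x := Nat.floor_le (by nlinarith)
  have key := sum_As (w := w) hw (D := D) (a := a) (b := b) (x := x) (θ := θ / 2) ?_ ?_ ha4
  · refine le_trans ?_ key
    have hab : a ≤ b := by
      apply Nat.floor_le_floor
      nlinarith
    have hcard : (Nat.primeCounting b : ℝ) - Nat.primeCounting a
        = (((Ioc a b).filter Nat.Prime).card : ℝ) := by
      have e : ∀ m : ℕ, Nat.primeCounting m = ((Iic m).filter Nat.Prime).card := by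
        intro m
        rw [Nat.primeCounting, Nat.primeCounting', Nat.count_eq_card_filter_range]
        congr 2
        ext k
        simp
      have h3 : Nat.primeCounting b = Nat.primeCounting a +
          ((Ioc a b).filter Nat.Prime).card := by
        rw [e, e, ← Finset.card_union_of_disjoint]
        · congr 1
          ext k
          simp only [Finset.mem_filter, Finset.mem_Iic, Finset.mem_union, Finset.mem_Ioc]
          constructor
          · rintro ⟨h, h'⟩
            rcases le_or_gt k a with h'' | h''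
            · exact Or.inl ⟨h'', h'⟩
            · exact Or.inr ⟨⟨h'', h⟩, h'⟩
          · rintro (⟨h, h'⟩ | ⟨⟨h, h''⟩, h'⟩)
            · exact ⟨h.trans hab, h'⟩
            · exact ⟨h'', h'⟩
        · rw [Finset.disjoint_left]
          intro k hk1 hk2
          rw [Finset.mem_filter, Finset.mem_Iic] at hk1
          rw [Finset.mem_filter, Finset.mem_Ioc] at hk2
          omega
      rw [h3]
      push_cast
      ring
    have h5 : (1 - 3 * δ) * (x / Real.log x) ≤ (((Ioc a b).filter Nat.Prime).card : ℝ) := by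
      rw [← hcard]
      rw [← sub_mul, ← mul_div_assoc, le_div_iff₀ hx0] at hx2
      rw [← mul_div_assoc, div_le_iff₀ hl]
      exact hx2
    have h6 : 0 ≤ x / Real.log x := by positivity
    calc (1 - θ) * (x / Real.log x) ≤ ((1 - θ / 2) * (1 - 3 * δ)) * (x / Real.log x) := by
          gcongr
          rw [hδ]
          nlinarith
      _ = (1 - θ / 2) * ((1 - 3 * δ) * (x / Real.log x)) := by ring
      _ ≤ (1 - θ / 2) * (((Ioc a b).filter Nat.Prime).card : ℝ) := by
          gcongr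
          linarith
  · intro p hp
    have h1 := hp1 p (by omega)
    rw [div_le_iff₀ hθ] at h1
    nlinarith
  · intro p hpa hpb
    have h1 := hp2 p (by omega)
    have hp0 : (0 : ℝ) < p := by
      have : 0 < p := by omega
      exact_mod_cast this
    rw [div_le_iff₀ hp0] at h1
    have h2 : (p : ℝ) ≤ (1 - δ) * x := le_trans (by exact_mod_cast hpb) hbx
    have h3 : 2 ≤ δ * x := by
      rw [div_le_iff₀ hδ0] at hx3
      linarith
    have h4 : ((p + w p + 1 : ℕ) : ℝ) ≤ x := by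
      push_cast
      have : δ / 2 * p ≤ δ / 2 * x := by
        have : (p : ℝ) ≤ x := by nlinarith
        gcongr
      linarith
    exact_mod_cast h4

variable {Ω : Type*} [MeasurableSpace Ω] {P : Measure Ω} [IsProbabilityMeasure P]
  {X : ℕ → Ω → ℕ}

/-- the expected number of patterns -/
theorem mean_lower (hw : ∀ n, 4 * w n ≤ n) (hX : Displaced w P X)
    (hlin : Tendsto (fun n : ℕ => (w n : ℝ) / n) atTop (𝓝 0)) (hinf : Tendsto w atTop atTop)
    {C : ℕ} (hC : Comp w C) {κ : ℝ} (hκ : ∀ᶠ n : ℕ in atTop, Real.log n ≤ κ * (2 * w n + 1))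
    {F H : Finset ℕ} (hHF : H ⊆ F) (hH : H.Nonempty) (hk : ((H.card : ℝ) - 1) * κ < 1)
    {ε : ℝ} (hε : 0 < ε) : ∀ᶠ x : ℕ in atTop,
      ((1 - ((H.card : ℝ) - 1) * κ) ^ H.card - ε) * (x / (Real.log x) ^ H.card)
        ≤ ∑ n ∈ Icc 1 x, P.real (pat X F H n) := by
  obtain ⟨D, hD⟩ : ∃ D, ∀ f ∈ F, f < D :=
    ⟨F.sup id + 1, fun f hf => Nat.lt_succ_of_le (Finset.le_sup (f := id) hf)⟩
  obtain ⟨k, hkH⟩ : ∃ k, H.card = k + 1 := ⟨H.card - 1, by
    have := Finset.card_pos.2 hH
    omega⟩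
  obtain ⟨β, hβ⟩ : ∃ β, β = 1 - (k : ℝ) * κ := ⟨_, rfl⟩
  have hkR : ((H.card : ℝ) - 1) = k := by rw [hkH]; push_cast; ring
  rw [hkR] at hk ⊢
  rw [← hβ]
  have hβ0 : 0 < β := by rw [hβ]; linarith
  have hκ0 : 0 < κ := by
    obtain ⟨n, h1, h2⟩ := (hκ.and (tlog.eventually_gt_atTop 0)).exists
    by_contra hcon
    push Not at hcon
    have h3 : κ * (2 * (w n : ℝ) + 1) ≤ 0 := mul_nonpos_of_nonpos_of_nonneg hcon (by positivity)
    linarith
  -- choose `θ`
  obtain ⟨θ, hθ0, hθβ, hθ1, hθ⟩ : ∃ θ : ℝ, 0 < θ ∧ θ < β ∧ θ < 1 ∧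
      β ^ (k + 1) - ε ≤ (1 - θ) * (β - θ) ^ (k + 1) := by
    have h1 : Tendsto (fun θ : ℝ => (1 - θ) * (β - θ) ^ (k + 1)) (𝓝[>] 0)
        (𝓝 ((1 - 0) * (β - 0) ^ (k + 1))) := by
      apply Tendsto.mono_left _ nhdsWithin_le_nhds
      have : Continuous (fun θ : ℝ => (1 - θ) * (β - θ) ^ (k + 1)) := by fun_prop
      exact this.continuousAt.tendsto
    have h2 := h1.eventually_const_le
      (show β ^ (k + 1) - ε < (1 - 0) * (β - 0) ^ (k + 1) by simp [hε])
    have h3 : ∀ᶠ θ : ℝ in 𝓝[>] 0, θ < β := nhdsWithin_le_nhds (gt_mem_nhds hβ0)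
    have h4 : ∀ᶠ θ : ℝ in 𝓝[>] 0, θ < 1 := nhdsWithin_le_nhds (gt_mem_nhds one_pos)
    obtain ⟨θ, h5, h6, h7, h8⟩ := (h2.and (h3.and (h4.and self_mem_nhdsWithin))).exists
    exact ⟨θ, h8, h6, h7, h5⟩
  obtain ⟨δ, hδ0, hδ1, hsum⟩ := sum_As_ev hw hlin hinf D (θ := θ / 2) (by positivity) (by linarith)
  have hδx : Tendsto (fun x : ℕ => δ * (x : ℝ)) atTop atTop :=
    (tendsto_natCast_atTop_atTop (R := ℝ)).const_mul_atTop hδ0
  have hfl : Tendsto (fun x : ℕ => ⌊δ * x⌋₊) atTop atTop := tendsto_nat_floor_atTop.comp hδx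
  obtain ⟨p1, hp1⟩ := eventually_atTop.1 hκ
  obtain ⟨n1, hn1⟩ := eventually_atTop.1 (eta hw hC hinf D hθ0)
  have hratio : Tendsto (fun x : ℕ => (k : ℝ) * κ * (Real.log x / Real.log (δ * x))) atTop
      (𝓝 (k * κ * 1)) := by
    apply Tendsto.const_mul
    have h4 : Tendsto (fun x : ℕ => 1 - Real.log δ / Real.log (δ * x)) atTop (𝓝 (1 - 0)) :=
      tendsto_const_nhds.sub ((Real.tendsto_log_atTop.comp hδx).const_div_atTop _)
    rw [sub_zero] at h4
    refine h4.congr' ?_
    filter_upwards [(Real.tendsto_log_atTop.comp hδx).eventually_gt_atTop 0,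
      eventually_ge_atTop 1] with x hx hx1
    simp only [Function.comp] at hx
    have hx0 : (0 : ℝ) < x := by exact_mod_cast hx1
    rw [eq_div_iff hx.ne', sub_mul, one_mul, div_mul_cancel₀ _ hx.ne',
      Real.log_mul hδ0.ne' hx0.ne']
    ring
  filter_upwards [hsum, hfl.eventually_ge_atTop (max p1 (2 * n1)),
    hratio.eventually_le_const (show k * κ * 1 < k * κ + θ / 2 by linarith),
    (Real.tendsto_log_atTop.comp hδx).eventually_gt_atTop 0, tlog.eventually_gt_atTop 0,
    eventually_ge_atTop 1] with x hx1 hx2 hx3 hx4 hx5 hx6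
  simp only [Function.comp] at hx4
  have hx0 : (0 : ℝ) < x := by exact_mod_cast hx6
  have hδx0 : 0 < δ * x := by positivity
  set a := ⌊δ * x⌋₊ with ha
  set b := ⌊(1 - δ) * x⌋₊ with hb
  obtain ⟨q0, hq0⟩ : ∃ q0, q0 = κ / Real.log (δ * x) := ⟨_, rfl⟩
  have hq00 : 0 ≤ q0 := by rw [hq0]; positivity
  obtain ⟨t, ht⟩ : ∃ t : ℕ → ℝ, t = fun n => max (As w D a b n - k * q0) 0 := ⟨_, rfl⟩
  have ht0 : ∀ n, 0 ≤ t n := fun n => by rw [ht]; exact le_max_right _ _
  -- pointwise
  have hpt : ∀ n ∈ Icc 1 x, (1 - θ) * t n ^ (k + 1) ≤ P.real (pat X F H n) := by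
    intro n _
    rcases (ht0 n).eq_or_lt with h | h
    · rw [← h, zero_pow (by omega), mul_zero]
      exact measureReal_nonneg
    · have h1 : t n = As w D a b n - k * q0 := by
        rw [ht] at h ⊢
        simp only [lt_max_iff, lt_self_iff_false, or_false] at h
        exact max_eq_left h.le
      have hne : (Qs w D a b n).Nonempty := by
        by_contra hcon
        rw [Finset.not_nonempty_iff_eq_empty] at hcon
        have : As w D a b n = 0 := by
          unfold As
          rw [hcon]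
          simp
        rw [h1, this] at h
        have : 0 ≤ (k : ℝ) * q0 := by positivity
        linarith
      have hna : n1 ≤ n := by
        obtain ⟨p, hp⟩ := hne
        unfold Qs at hp
        rw [Finset.mem_filter, Finset.mem_filter, Finset.mem_Ioc] at hp
        have := hw p
        have h2 : 2 * n1 ≤ a := (le_max_right _ _).trans hx2
        omega
      have hQ : ∀ p ∈ Qs w D a b n, a < p ∧ p.Prime ∧ ∀ f ∈ F, n + f ∈ Icc (p - w p) (p + w p) := by
        intro p hp
        unfold Qs at hp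
        rw [Finset.mem_filter, Finset.mem_filter, Finset.mem_Ioc] at hp
        refine ⟨hp.1.1.1, hp.1.2, fun f hf => ?_⟩
        have := hD f hf
        rw [Finset.mem_Icc]
        omega
      have key := pat_prob hw hX hHF hH (n := n) (M := 2 * (n + D)) ?_
        (Q := Qs w D a b n) (fun p hp => (hQ p hp).2) (η := θ) (q0 := q0) (t := t n)
        (hn1 n hna _ F hD) hθ1.le hq00 ?_ (ht0 n) ?_
      · rwa [hkH] at key
      · intro p _ hp
        refine far hw (N := n + D) (fun u hu => ?_) hp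
        obtain ⟨f, hf, rfl⟩ := Finset.mem_image.1 hu
        have := hD f hf
        omega
      · intro p hp
        have h2 := (hQ p hp).1
        have h3 : p1 ≤ p := by
          have : p1 ≤ a := (le_max_left _ _).trans hx2
          omega
        have h4 := hp1 p h3
        have h5 : δ * x < p := by
          have := Nat.lt_floor_add_one (δ * (x : ℝ))
          have h6 : ((a + 1 : ℕ) : ℝ) ≤ p := by exact_mod_cast h2
          push_cast at h6
          linarith
        have h6 : Real.log (δ * x) ≤ Real.log p := Real.log_le_log hδx0 h5.le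
        rw [hq0, div_le_div_iff₀ (by positivity) hx4]
        linarith
      · rw [hkR, h1]
        unfold As
        linarith
  -- the sum of the `t n`
  have hsumt : (β - θ) * (x / Real.log x) ≤ ∑ n ∈ Icc 1 x, t n := by
    have h1 : ∑ n ∈ Icc 1 x, (As w D a b n - k * q0) ≤ ∑ n ∈ Icc 1 x, t n := by
      refine Finset.sum_le_sum fun n _ => ?_
      rw [ht]
      exact le_max_left _ _
    rw [Finset.sum_sub_distrib, Finset.sum_const, Nat.card_Icc, Nat.add_sub_cancel,
      nsmul_eq_mul] at h1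
    have h2 : (x : ℝ) * (k * q0) ≤ (k * κ + θ / 2) * (x / Real.log x) := by
      have h3 : (x : ℝ) * (k * q0) = (k * κ * (Real.log x / Real.log (δ * x))) * (x / Real.log x) := by
        rw [hq0]
        field_simp
      rw [h3]
      gcongr
    have h4 : (β - θ) * (x / Real.log x) = (1 - θ / 2) * (x / Real.log x)
        - (k * κ + θ / 2) * (x / Real.log x) := by
      rw [hβ]
      ring
    linarith
  have hpow := pow_sum_div_card_le_sum_pow (s := Icc 1 x) (f := t) (fun n _ => ht0 n) k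
  rw [Nat.card_Icc, Nat.add_sub_cancel] at hpow
  have hL0 : 0 ≤ x / Real.log x := by positivity
  calc (β ^ H.card - ε) * (x / (Real.log x) ^ H.card)
      ≤ ((1 - θ) * (β - θ) ^ (k + 1)) * (x / (Real.log x) ^ (k + 1)) := by
        rw [hkH]
        gcongr
    _ = (1 - θ) * (((β - θ) * (x / Real.log x)) ^ (k + 1) / (x : ℝ) ^ k) := by
        rw [mul_pow, div_pow, pow_succ (x : ℝ) k]
        field_simp
    _ ≤ (1 - θ) * ((∑ n ∈ Icc 1 x, t n) ^ (k + 1) / (x : ℝ) ^ k) := by
        have h1 : 0 ≤ (β - θ) * (x / Real.log x) := mul_nonneg (by linarith) hL0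
        have h2 : 0 ≤ 1 - θ := by linarith
        gcongr
    _ ≤ (1 - θ) * ∑ n ∈ Icc 1 x, t n ^ (k + 1) :=
        mul_le_mul_of_nonneg_left hpow (by linarith)
    _ = ∑ n ∈ Icc 1 x, (1 - θ) * t n ^ (k + 1) := Finset.mul_sum _ _ _
    _ ≤ _ := Finset.sum_le_sum hpt

end Pool.Agent.K4H61.DP
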