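import Mathlib
import Pool.Agent.K4H61.DP.Conc
import Pool.Agent.K4H61.DP.Mean

/-!
# Displaced primes: the number of patterns, almost surely
-/

set_option autoImplicit false

open MeasureTheory ProbabilityTheory Filter Finset
open scoped Topology

namespace Pool.Agent.K4H61.DP

open Pool.Agent.K4H77.Displ

open scoped Classical in
/-- the number of patterns as a function of the positions of the primes up to `M` -/
noncomputable def cf (M x : ℕ) (F H : Finset ℕ) (v : ℕ → ℕ) : ℝ :=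
  (((Icc 1 x).filter (fun n => ∀ f ∈ F, ((∃ p, p ≤ M ∧ p.Prime ∧ v p = n + f) ↔ f ∈ H))).card : ℝ)

theorem cf_dep (M x : ℕ) (F H : Finset ℕ) : Dep (Iic M) (cf M x F H) := by
  intro u v h
  unfold cf
  congr 2
  ext n
  simp only [Finset.mem_filter, and_congr_right_iff]
  intro _
  refine forall₂_congr fun f _ => ?_
  refine iff_congr ?_ Iff.rfl
  refine exists_congr fun p => ?_
  refine and_congr_right fun hp => and_congr_right fun _ => ?_
  rw [h p (Finset.mem_Iic.2 hp)]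

theorem cf_nonneg (M x : ℕ) (F H : Finset ℕ) (v : ℕ → ℕ) : 0 ≤ cf M x F H v := by
  unfold cf
  positivity

theorem cf_le (M x : ℕ) (F H : Finset ℕ) (v : ℕ → ℕ) : cf M x F H v ≤ x := by
  unfold cf
  have h := Finset.card_filter_le (Icc 1 x)
    (fun n => ∀ f ∈ F, ((∃ p, p ≤ M ∧ p.Prime ∧ v p = n + f) ↔ f ∈ H))
  rw [Nat.card_Icc, Nat.add_sub_cancel] at h
  have h2 : (((Icc 1 x).filter
    (fun n => ∀ f ∈ F, ((∃ p, p ≤ M ∧ p.Prime ∧ v p = n + f) ↔ f ∈ H))).card : ℝ) ≤ x := by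
    exact_mod_cast h
  convert h2 using 3

theorem cf_upd_le (M x : ℕ) (F H : Finset ℕ) (p : ℕ) (v : ℕ → ℕ) (s t : ℕ) :
    cf M x F H (Function.update v p s) ≤ cf M x F H (Function.update v p t) + 2 * F.card := by
  classical
  unfold cf
  set S := (Icc 1 x).filter (fun n => ∀ f ∈ F,
    ((∃ q, q ≤ M ∧ q.Prime ∧ Function.update v p s q = n + f) ↔ f ∈ H)) with hS
  set T := (Icc 1 x).filter (fun n => ∀ f ∈ F,
    ((∃ q, q ≤ M ∧ q.Prime ∧ Function.update v p t q = n + f) ↔ f ∈ H)) with hT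
  have hsub : S ⊆ T ∪ (F.image (fun f => s - f) ∪ F.image (fun f => t - f)) := by
    intro n hn
    rw [hS, Finset.mem_filter] at hn
    rw [Finset.mem_union]
    by_cases hc : ∃ f ∈ F, s = n + f ∨ t = n + f
    · right
      obtain ⟨f, hf, h | h⟩ := hc
      · refine Finset.mem_union_left _ (Finset.mem_image.2 ⟨f, hf, by omega⟩)
      · refine Finset.mem_union_right _ (Finset.mem_image.2 ⟨f, hf, by omega⟩)
    · left
      push Not at hc
      rw [hT, Finset.mem_filter]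
      refine ⟨hn.1, fun f hf => ?_⟩
      rw [← hn.2 f hf]
      refine exists_congr fun q => and_congr_right fun _ => and_congr_right fun _ => ?_
      by_cases hq : q = p
      · subst hq
        rw [Function.update_self, Function.update_self]
        have := hc f hf
        constructor
        · intro h; exact absurd h this.2
        · intro h; exact absurd h this.1
      · rw [Function.update_of_ne hq, Function.update_of_ne hq]
  have h1 : S.card ≤ T.card + 2 * F.card := by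
    refine (Finset.card_le_card hsub).trans ?_
    refine (Finset.card_union_le _ _).trans ?_
    have h2 := Finset.card_union_le (F.image (fun f => s - f)) (F.image (fun f => t - f))
    have h3 : (F.image (fun f => s - f)).card ≤ F.card := Finset.card_image_le
    have h4 : (F.image (fun f => t - f)).card ≤ F.card := Finset.card_image_le
    omega
  exact_mod_cast h1

theorem cf_diff (M x : ℕ) (F H : Finset ℕ) (p : ℕ) (v : ℕ → ℕ) (s t : ℕ) :
    |cf M x F H (Function.update v p s) - cf M x F H (Function.update v p t)| ≤ 2 * F.card := by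
  rw [abs_le]
  have h1 := cf_upd_le M x F H p v s t
  have h2 := cf_upd_le M x F H p v t s
  constructor <;> linarith

variable {Ω : Type*} [MeasurableSpace Ω] {w : ℕ → ℕ} {P : Measure Ω} [IsProbabilityMeasure P]
  {X : ℕ → Ω → ℕ}

omit [MeasurableSpace Ω] in
theorem near (hw : ∀ n, 4 * w n ≤ n) (hmem : ∀ p ω, X p ω ∈ Icc (p - w p) (p + w p)) {M m : ℕ}
    (hm : 2 * m ≤ M) (ω : Ω) :
    (∃ p, p ≤ M ∧ p.Prime ∧ X p ω = m) ↔ m ∈ dset X ω := by
  constructor
  · rintro ⟨p, -, hp, h⟩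
    exact ⟨p, hp, h⟩
  · rintro ⟨p, hp, h⟩
    refine ⟨p, ?_, hp, h⟩
    have h1 := hmem p ω
    rw [Finset.mem_Icc] at h1
    have := hw p
    omega

open scoped Classical in
/-- the number of patterns -/
noncomputable def cnt {Ω : Type*} (X : ℕ → Ω → ℕ) (F H : Finset ℕ) (x : ℕ) (ω : Ω) : ℕ :=
  ((Icc 1 x).filter (fun n => ∀ f ∈ F, (n + f ∈ dset X ω ↔ f ∈ H))).card

omit [MeasurableSpace Ω] in
theorem cf_eq (hw : ∀ n, 4 * w n ≤ n) (hmem : ∀ p ω, X p ω ∈ Icc (p - w p) (p + w p)) {M x D : ℕ}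
    {F : Finset ℕ} (H : Finset ℕ) (hD : ∀ f ∈ F, f < D) (hM : 2 * (x + D) ≤ M) (ω : Ω) :
    cf M x F H (fun i => X i ω) = cnt X F H x ω := by
  unfold cf cnt
  congr 2
  ext n
  simp only [Finset.mem_filter, Finset.mem_Icc, and_congr_right_iff]
  intro hn
  refine forall₂_congr fun f hf => ?_
  refine iff_congr ?_ Iff.rfl
  exact near hw hmem (by have := hD f hf; omega) ω

theorem cf_int (hw : ∀ n, 4 * w n ≤ n) (hX : Displaced w P X) {M x D : ℕ}
    {F : Finset ℕ} (H : Finset ℕ) (hD : ∀ f ∈ F, f < D) (hM : 2 * (x + D) ≤ M) :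
    ∫ ω, cf M x F H (fun i => X i ω) ∂P = ∑ n ∈ Icc 1 x, P.real (pat X F H n) := by
  classical
  have e : (fun ω => cf M x F H (fun i => X i ω))
      = fun ω => ∑ n ∈ Icc 1 x, (pat X F H n).indicator (1 : Ω → ℝ) ω := by
    funext ω
    rw [cf_eq hw hX.mem H hD hM]
    unfold cnt
    rw [Finset.card_filter]
    push_cast
    refine Finset.sum_congr rfl fun n _ => ?_
    by_cases h : ∀ f ∈ F, (n + f ∈ dset X ω ↔ f ∈ H)
    · rw [if_pos h, Set.indicator_of_mem (show ω ∈ pat X F H n from h)]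
      rfl
    · rw [if_neg h, Set.indicator_of_notMem (show ω ∉ pat X F H n from h)]
  rw [e, integral_finsetSum]
  · exact Finset.sum_congr rfl fun n _ => integral_indicator_one (pat_meas hw hX F H n)
  · intro n _
    exact (integrable_const (1 : ℝ)).indicator (pat_meas hw hX F H n)

/-- one pattern, one `ε ≤ 1` -/
theorem final_aux (hw : ∀ n, 4 * w n ≤ n) (hX : Displaced w P X)
    (hlin : Tendsto (fun n : ℕ => (w n : ℝ) / n) atTop (𝓝 0)) (hinf : Tendsto w atTop atTop)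
    {C : ℕ} (hC : Comp w C) {κ : ℝ} (hκ : ∀ᶠ n : ℕ in atTop, Real.log n ≤ κ * (2 * w n + 1))
    {F H : Finset ℕ} (hHF : H ⊆ F) (hH : H.Nonempty) (hk : ((H.card : ℝ) - 1) * κ < 1)
    {ε : ℝ} (hε : 0 < ε) (hε1 : ε ≤ 1) : ∀ᵐ ω ∂P, ∀ᶠ x : ℕ in atTop,
      ((1 - ((H.card : ℝ) - 1) * κ) ^ H.card - ε) * (x / (Real.log x) ^ H.card)
        ≤ cnt X F H x ω := by
  obtain ⟨D, hD⟩ : ∃ D, ∀ f ∈ F, f < D :=
    ⟨F.sup id + 1, fun f hf => Nat.lt_succ_of_le (Finset.le_sup (f := id) hf)⟩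
  have hF : F.Nonempty := hH.mono hHF
  have hF0 : (0 : ℝ) < F.card := by exact_mod_cast Finset.card_pos.2 hF
  obtain ⟨k, hk'⟩ : ∃ k, k = H.card := ⟨_, rfl⟩
  rw [← hk'] at hk ⊢
  have hmean := mean_lower hw hX hlin hinf hC hκ hHF hH (by rwa [← hk']) (ε := ε / 2)
    (by positivity)
  rw [← hk'] at hmean
  obtain ⟨c, hc⟩ : ∃ c : ℝ, c = 2 * F.card := ⟨_, rfl⟩
  have hc0 : 0 < c := by rw [hc]; positivity
  obtain ⟨s, hs⟩ : ∃ s : ℕ → ℝ, s = fun x : ℕ => ε / 2 * ((x : ℝ) / (Real.log (x : ℝ)) ^ k) := ⟨_, rfl⟩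
  let B : ℕ → Set Ω := fun x => {ω | cf (2 * (x + D)) x F H (fun i => X i ω)
    ≤ (∫ ω, cf (2 * (x + D)) x F H (fun i => X i ω) ∂P) - s x}
  -- growth
  have hgrow : ∀ᶠ x : ℕ in atTop, 2 * (16 * c ^ 2) * (4 / ε ^ 2) * (Real.log x) ^ (2 * k + 1)
      ≤ x := by
    have h1 : (fun x : ℝ => (Real.log x) ^ (2 * k + 1)) =o[atTop] fun x => x := by
      have := isLittleO_log_rpow_rpow_atTop (s := 1) ((2 * k + 1 : ℕ) : ℝ) one_pos
      refine (this.congr (fun x => ?_) fun x => ?_)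
      · exact Real.rpow_natCast _ _
      · exact Real.rpow_one x
    have h2 := h1.comp_tendsto (tendsto_natCast_atTop_atTop (R := ℝ))
    have h3 := h2.def (c := (2 * (16 * c ^ 2) * (4 / ε ^ 2))⁻¹) (by positivity)
    filter_upwards [h3, eventually_ge_atTop 1] with x hx hx1
    simp only [Function.comp] at hx
    rw [Real.norm_of_nonneg (show (0 : ℝ) ≤ x by positivity), Real.norm_of_nonneg
      (pow_nonneg (Real.log_natCast_nonneg x) _)] at hx
    rw [inv_mul_eq_div, le_div_iff₀ (by positivity)] at hx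
    linarith
  have hbound : ∀ᶠ x : ℕ in atTop, ‖P.real (B x)‖ ≤ 1 / (x : ℝ) ^ 2 := by
    filter_upwards [hgrow, tlog.eventually_ge_atTop 1, eventually_ge_atTop (2 * D + 1)]
      with x hx hl hxD
    have hx0 : (0 : ℝ) < x := by
      have : 0 < x := by omega
      exact_mod_cast this
    have hl0 : 0 < Real.log x := by linarith
    rw [Real.norm_of_nonneg measureReal_nonneg]
    have hcard : (Iic (2 * (x + D))).card = 2 * (x + D) + 1 := by
      rw [Nat.card_Iic]
    have hcard1 : (((Iic (2 * (x + D))).card : ℕ) : ℝ) ≤ 4 * x := by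
      rw [hcard]
      have : 2 * (x + D) + 1 ≤ 4 * x := by omega
      exact_mod_cast this
    have hcard2 : (x : ℝ) ≤ (((Iic (2 * (x + D))).card : ℕ) : ℝ) := by
      rw [hcard]
      have : x ≤ 2 * (x + D) + 1 := by omega
      exact_mod_cast this
    have hs0 : 0 ≤ s x := by rw [hs]; positivity
    have hpow1 : 1 ≤ (Real.log x) ^ k := one_le_pow₀ hl
    have hsx : s x ≤ x := by
      rw [hs]
      simp only
      have h1 : (x : ℝ) / (Real.log x) ^ k ≤ x := div_le_self hx0.le hpow1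
      have h2 : 0 ≤ (x : ℝ) / (Real.log x) ^ k := by positivity
      nlinarith
    have hc2 : 2 ≤ c := by
      rw [hc]
      have : (1 : ℝ) ≤ F.card := by exact_mod_cast Finset.card_pos.2 hF
      linarith
    have key := tail hw hX hc0 hs0 (G := Iic (2 * (x + D))) ⟨0, Finset.mem_Iic.2 (Nat.zero_le _)⟩
      (cf_dep (2 * (x + D)) x F H) ⟨x, fun v => by
        rw [abs_of_nonneg (cf_nonneg _ _ _ _ _)]
        exact cf_le _ _ _ _ _⟩ (fun p v s t => by
        rw [hc]
        exact cf_diff _ _ _ _ _ _ _ _) (by nlinarith)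
    refine key.trans ?_
    rw [one_div, ← Real.exp_log (show (0 : ℝ) < ((x : ℝ) ^ 2)⁻¹ by positivity), Real.log_inv,
      Real.log_pow]
    refine Real.exp_le_exp.2 (neg_le_neg ?_)
    have h1 : s x ^ 2 / (4 * (4 * x) * c ^ 2)
        ≤ s x ^ 2 / (4 * (((Iic (2 * (x + D))).card : ℕ) : ℝ) * c ^ 2) := by
      have : 0 < (((Iic (2 * (x + D))).card : ℕ) : ℝ) := by linarith
      gcongr
    refine le_trans ?_ h1
    rw [le_div_iff₀ (by positivity), hs]
    simp only
    have h2 : (ε / 2 * (x / (Real.log x) ^ k)) ^ 2 = (ε ^ 2 / 4) * x ^ 2 / (Real.log x) ^ (2 * k) := by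
      rw [mul_pow, div_pow, div_pow, ← pow_mul, mul_comm k 2]
      ring
    rw [h2, le_div_iff₀ (by positivity)]
    have h3 : 2 * (16 * c ^ 2) * (4 / ε ^ 2) * (Real.log x) ^ (2 * k + 1) * (ε ^ 2 / 4) * x
        ≤ x * (ε ^ 2 / 4) * x := by gcongr
    have h4 : 2 * (16 * c ^ 2) * (4 / ε ^ 2) * (Real.log x) ^ (2 * k + 1) * (ε ^ 2 / 4) * x
        = ((2 : ℕ) : ℝ) * Real.log x * (4 * (4 * x) * c ^ 2) * Real.log x ^ (2 * k) := by
      push_cast
      field_simp
      ring
    nlinarith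
  have hsumm : Summable (fun x => P.real (B x)) :=
    Summable.of_norm_bounded_eventually_nat (g := fun x : ℕ => 1 / (x : ℝ) ^ 2)
      (Real.summable_one_div_nat_pow.2 one_lt_two) hbound
  have hfin : ∑' x, P (B x) ≠ ⊤ := by
    have e : ∀ x, P (B x) = ENNReal.ofReal (P.real (B x)) := fun x =>
      (ofReal_measureReal (measure_ne_top _ _)).symm
    simp_rw [e]
    rw [← ENNReal.ofReal_tsum_of_nonneg (fun _ => measureReal_nonneg) hsumm]
    exact ENNReal.ofReal_ne_top
  have hae := ae_eventually_notMem hfin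
  filter_upwards [hae] with ω hω
  filter_upwards [hω, hmean] with x hx1 hx2
  have h1 : (∫ ω, cf (2 * (x + D)) x F H (fun i => X i ω) ∂P) - s x
      < cf (2 * (x + D)) x F H (fun i => X i ω) := by
    by_contra hcon
    exact hx1 (not_lt.1 hcon)
  rw [cf_int hw hX H hD le_rfl, cf_eq hw hX.mem H hD le_rfl] at h1
  have h2 : s x = ε / 2 * (x / (Real.log x) ^ k) := by rw [hs]
  have h3 : ((1 - ((k : ℝ) - 1) * κ) ^ k - ε) * (x / (Real.log x) ^ k)
      = ((1 - ((k : ℝ) - 1) * κ) ^ k - ε / 2) * (x / (Real.log x) ^ k) - s x := by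
    rw [h2]
    ring
  rw [h3]
  linarith

/-- the widths tend to infinity -/
theorem w_inf {κ : ℝ} (hκ : ∀ᶠ n : ℕ in atTop, Real.log n ≤ κ * (2 * w n + 1)) :
    Tendsto w atTop atTop := by
  have hκ0 : 0 < κ := by
    obtain ⟨n, h1, h2⟩ := (hκ.and (tlog.eventually_gt_atTop 0)).exists
    by_contra hcon
    push Not at hcon
    have h3 : κ * (2 * (w n : ℝ) + 1) ≤ 0 := mul_nonpos_of_nonpos_of_nonneg hcon (by positivity)
    linarith
  rw [tendsto_atTop]
  intro B
  filter_upwards [hκ, tlog.eventually_ge_atTop (κ * (2 * B + 1))] with n h1 h2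
  have h3 : κ * (2 * (B : ℝ) + 1) ≤ κ * (2 * w n + 1) := h2.trans h1
  have h4 : (2 * (B : ℝ) + 1) ≤ (2 * w n + 1) := le_of_mul_le_mul_left h3 hκ0
  have h5 : (B : ℝ) ≤ w n := by linarith
  exact_mod_cast h5

/-- all patterns at once -/
theorem final_a (hw : ∀ n, 4 * w n ≤ n) (hX : Displaced w P X)
    (hlin : Tendsto (fun n : ℕ => (w n : ℝ) / n) atTop (𝓝 0))
    {C : ℕ} (hC : Comp w C) {κ : ℝ} (hκ : ∀ᶠ n : ℕ in atTop, Real.log n ≤ κ * (2 * w n + 1)) :
    ∀ᵐ ω ∂P, ∀ F H : Finset ℕ, H ⊆ F → H.Nonempty → ((H.card : ℝ) - 1) * κ < 1 →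
      ∀ ε : ℝ, 0 < ε → ∀ᶠ x : ℕ in atTop,
      ((1 - ((H.card : ℝ) - 1) * κ) ^ H.card - ε) * (x / (Real.log x) ^ H.card)
        ≤ cnt X F H x ω := by
  rw [ae_all_iff]
  intro F
  rw [ae_all_iff]
  intro H
  by_cases hc : H ⊆ F ∧ H.Nonempty ∧ ((H.card : ℝ) - 1) * κ < 1
  · obtain ⟨h1, h2, h3⟩ := hc
    have h4 : ∀ᵐ ω ∂P, ∀ m : ℕ, ∀ᶠ x : ℕ in atTop,
        ((1 - ((H.card : ℝ) - 1) * κ) ^ H.card - 1 / ((m : ℝ) + 1)) * (x / (Real.log x) ^ H.card)
        ≤ cnt X F H x ω := by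
      rw [ae_all_iff]
      intro m
      refine final_aux hw hX hlin (w_inf hκ) hC hκ h1 h2 h3 (by positivity) ?_
      rw [div_le_one (by positivity)]
      have : (0 : ℝ) ≤ m := by positivity
      linarith
    filter_upwards [h4] with ω hω _ _ _ ε hε
    obtain ⟨m, hm⟩ := exists_nat_one_div_lt hε
    filter_upwards [hω m] with x hx
    refine le_trans ?_ hx
    have : 0 ≤ (x : ℝ) / (Real.log x) ^ H.card := by
      have := Real.log_natCast_nonneg x
      positivity
    have h5 : (1 - ((H.card : ℝ) - 1) * κ) ^ H.card - ε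
      ≤ (1 - ((H.card : ℝ) - 1) * κ) ^ H.card - 1 / ((m : ℝ) + 1) := by linarith
    gcongr
  · refine Filter.Eventually.of_forall fun ω h1 h2 h3 => absurd ⟨h1, h2, h3⟩ hc

/-- displacements larger than the logarithm -/
theorem final_b (hw : ∀ n, 4 * w n ≤ n) (hX : Displaced w P X)
    (hlin : Tendsto (fun n : ℕ => (w n : ℝ) / n) atTop (𝓝 0))
    {C : ℕ} (hC : Comp w C) (hlog : Tendsto (fun n : ℕ => (w n : ℝ) / Real.log n) atTop atTop) :
    ∀ᵐ ω ∂P, ∀ F H : Finset ℕ, H ⊆ F → H.Nonempty →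
      ∀ ε : ℝ, 0 < ε → ∀ᶠ x : ℕ in atTop,
      (1 - ε) * (x / (Real.log x) ^ H.card) ≤ cnt X F H x ω := by
  have hκ : ∀ m : ℕ, ∀ᶠ n : ℕ in atTop, Real.log n ≤ (1 / ((m : ℝ) + 1)) * (2 * w n + 1) := by
    intro m
    filter_upwards [hlog.eventually_ge_atTop ((m : ℝ) + 1), tlog.eventually_gt_atTop 0] with n h1 h2
    rw [le_div_iff₀ h2] at h1
    rw [one_div, inv_mul_eq_div, le_div_iff₀ (by positivity)]
    have : (0 : ℝ) ≤ w n := by positivity
    linarith
  have h1 : ∀ᵐ ω ∂P, ∀ m : ℕ, ∀ F H : Finset ℕ, H ⊆ F → H.Nonempty →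
      ((H.card : ℝ) - 1) * (1 / ((m : ℝ) + 1)) < 1 →
      ∀ ε : ℝ, 0 < ε → ∀ᶠ x : ℕ in atTop,
      ((1 - ((H.card : ℝ) - 1) * (1 / ((m : ℝ) + 1))) ^ H.card - ε) * (x / (Real.log x) ^ H.card)
        ≤ cnt X F H x ω := by
    rw [ae_all_iff]
    intro m
    exact final_a hw hX hlin hC (hκ m)
  filter_upwards [h1] with ω hω F H hHF hH ε hε
  -- choose `m`
  have h2 : Tendsto (fun m : ℕ => (1 - ((H.card : ℝ) - 1) * (1 / ((m : ℝ) + 1))) ^ H.card) atTop
      (𝓝 ((1 - ((H.card : ℝ) - 1) * 0) ^ H.card)) := by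
    apply Tendsto.pow
    exact tendsto_const_nhds.sub (tendsto_const_nhds.mul tendsto_one_div_add_atTop_nhds_zero_nat)
  have h3 : Tendsto (fun m : ℕ => ((H.card : ℝ) - 1) * (1 / ((m : ℝ) + 1))) atTop
      (𝓝 (((H.card : ℝ) - 1) * 0)) :=
    tendsto_const_nhds.mul tendsto_one_div_add_atTop_nhds_zero_nat
  obtain ⟨m, h4, h5⟩ := ((h2.eventually_const_le
    (show 1 - ε / 2 < (1 - ((H.card : ℝ) - 1) * 0) ^ H.card by simp [hε])).and
    (h3.eventually_lt_const (show ((H.card : ℝ) - 1) * 0 < 1 by simp))).exists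
  filter_upwards [hω m F H hHF hH h5 (ε / 2) (by positivity)] with x hx
  refine le_trans ?_ hx
  have : 0 ≤ (x : ℝ) / (Real.log x) ^ H.card := by
    have := Real.log_natCast_nonneg x
    positivity
  have h6 : 1 - ε ≤ (1 - ((H.card : ℝ) - 1) * (1 / ((m : ℝ) + 1))) ^ H.card - ε / 2 := by linarith
  gcongr

/-- the displaced primes exist -/
theorem exists_displaced {w : ℕ → ℕ} (hw : ∀ n, 4 * w n ≤ n) :
    ∃ (Ω : Type) (_ : MeasurableSpace Ω) (P : Measure Ω) (_ : IsProbabilityMeasure P)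
      (X : ℕ → Ω → ℕ), Displaced w P X := by
  classical
  set I : ℕ → Type := fun p => {t : ℕ // t ∈ Icc (p - w p) (p + w p)} with hI
  set μ : ∀ p : ℕ, Measure (I p) := fun p =>
    ENNReal.ofReal (1 / (2 * w p + 1)) • Measure.count with hμ
  have hprob : ∀ p, IsProbabilityMeasure (μ p) := by
    intro p
    constructor
    rw [hμ]
    simp only [Measure.coe_smul, Pi.smul_apply, smul_eq_mul]
    have h1 : (Measure.count (Set.univ : Set (I p))) = ((2 * w p + 1 : ℕ) : ENNReal) := by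
      rw [Measure.count_univ, ENat.card_eq_coe_fintype_card, Fintype.card_coe, card_rg hw p]
      rfl
    rw [h1, ← ENNReal.ofReal_natCast, ← ENNReal.ofReal_mul (by positivity)]
    push_cast
    rw [one_div, inv_mul_cancel₀ (by positivity), ENNReal.ofReal_one]
  refine ⟨∀ p, I p, inferInstance, Measure.infinitePi μ, inferInstance, fun p ω => (ω p).1, ?_⟩
  have hval : ∀ p, Measurable (fun x : I p => x.1) := fun p => measurable_subtype_coe
  constructor
  · intro p
    exact (hval p).comp (measurable_pi_apply p)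
  · exact iIndepFun_infinitePi (P := μ) (X := fun p (x : I p) => x.1) hval
  · intro p ω
    exact (ω p).2
  · intro p t ht
    have h1 : (fun ω : (∀ p, I p) => (ω p).1) ⁻¹' {t} =
        (fun ω : (∀ p, I p) => ω p) ⁻¹' {(⟨t, ht⟩ : I p)} := by
      ext ω
      simp only [Set.mem_preimage, Set.mem_singleton_iff]
      constructor
      · intro h
        exact Subtype.ext h
      · intro h
        rw [h]
    have h2 := (measurePreserving_eval_infinitePi μ p).measure_preimage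
      (measurableSet_singleton (⟨t, ht⟩ : I p)).nullMeasurableSet
    have h3 : Measure.infinitePi μ ((fun ω : (∀ p, I p) => ω p) ⁻¹' {(⟨t, ht⟩ : I p)}) =
        μ p {(⟨t, ht⟩ : I p)} := h2
    rw [h1, h3, hμ]
    simp only [Measure.coe_smul, Pi.smul_apply, smul_eq_mul]
    rw [Measure.count_singleton, mul_one]

end Pool.Agent.K4H61.DP
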